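import Pool.Agent.J4H95.SP.Def

set_option autoImplicit false

/-! Sparsification of 3-CNFs by constant-depth circuits: the assembly. -/

namespace Pool.Agent.J4H17.SP

open Finset Pool.Agent.J4H64.SS Pool.Agent.J4H95.SP

/-- wider gates only help -/
theorem AC.mono {I : Type} {w w' : ℕ} (h : w ≤ w') {d : ℕ} {f : (I → Bool) → Prop}
    (hf : AC w d f) : AC w' d f := by
  induction hf with
  | inp d i => exact AC.inp d i
  | neg _ ih => exact AC.neg ih
  | ex f hk _ ih => exact AC.ex f (hk.trans h) ih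

/-- the set of literals made true by an assignment -/
def Tr {n : ℕ} (a : Fin n → Bool) : Finset (Fin n × Bool) := univ.filter (fun l => a l.1 = l.2)

theorem mem_Tr {n : ℕ} (a : Fin n → Bool) (l : Fin n × Bool) : l ∈ Tr a ↔ a l.1 = l.2 := by
  simp [Tr]

/-- the edges of the sparse hypergraph have at most three elements -/
theorem Psi_card {V : Type} [DecidableEq V] {b c : ℕ} {Z : Finset V} {Φ : Finset V → Prop}
    {e : Finset V} (h : Psi b c Z Φ e) : e.card ≤ 3 := by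
  rcases h with h | h | h | h
  · rw [h.1]; simp
  · obtain ⟨u, rfl, -⟩ := h
    simp
  · obtain ⟨u, v, rfl, -⟩ := h
    exact (card_le_two).trans (by norm_num)
  · exact h.1.1.le

theorem Hyp_card {n : ℕ} {x : Cl n → Bool} {e : Finset (Fin n × Bool)} (h : Hyp x e) :
    e.card ≤ 3 := h.1

theorem sat_iff {n : ℕ} (x : Cl n → Bool) : Sat x ↔ ∃ a : Fin n → Bool, Hits (Tr a) (Hyp x) := by
  constructor
  · rintro ⟨a, ha⟩
    refine ⟨a, fun e he => ?_⟩
    obtain ⟨h, hx⟩ := he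
    obtain ⟨l, hl, hl'⟩ := ha ⟨e, h⟩ hx
    exact ⟨l, hl, (mem_Tr a l).2 hl'⟩
  · rintro ⟨a, ha⟩
    refine ⟨a, fun c hc => ?_⟩
    obtain ⟨l, hl, hl'⟩ := ha c.1 ⟨c.2, hc⟩
    exact ⟨l, hl, (mem_Tr a l).1 hl'⟩

open Classical in
/-- the indicator vector of the sparse hypergraph -/
noncomputable def Ind {n : ℕ} (b c : ℕ) (Z : Finset (Fin n × Bool)) (x : Cl n → Bool) :
    Cl n → Bool := fun q => decide (Psi b c Z (Hyp x) q.1)

theorem hyp_ind {n : ℕ} (b c : ℕ) (Z : Finset (Fin n × Bool)) (x : Cl n → Bool)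
    (e : Finset (Fin n × Bool)) : Hyp (Ind b c Z x) e ↔ Psi b c Z (Hyp x) e := by
  constructor
  · rintro ⟨h, hx⟩
    simpa only [Ind, decide_eq_true_eq] using hx
  · intro h
    exact ⟨Psi_card h, by simpa only [Ind, decide_eq_true_eq] using h⟩

theorem hits_ind {n : ℕ} (b c : ℕ) (Z : Finset (Fin n × Bool)) (x : Cl n → Bool)
    (T : Finset (Fin n × Bool)) :
    Hits T (Hyp (Ind b c Z x)) ↔ Hits T (Psi b c Z (Hyp x)) := by
  constructor
  · intro h e he
    exact h e ((hyp_ind b c Z x e).2 he)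
  · intro h e he
    exact h e ((hyp_ind b c Z x e).1 he)

/-- every literal is in few clauses of the sparse hypergraph -/
theorem ind_sparse (hDEG : S_DEG) {n : ℕ} (b c : ℕ) (hb : 1 ≤ b) (hc : 1 ≤ c)
    (Z : Finset (Fin n × Bool)) (x : Cl n → Bool) (l : Fin n × Bool) :
    (univ.filter (fun q : Cl n => Ind b c Z x q = true ∧ l ∈ q.1)).card ≤
      1 + b + 2 * c + 2 * c * (2 * c) := by
  classical
  have h := hDEG (Fin n × Bool) b c hb hc Z (Hyp x) l
    ((univ.filter (fun q : Cl n => Ind b c Z x q = true ∧ l ∈ q.1)).image Subtype.val) ?_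
  · rwa [card_image_of_injective _ Subtype.val_injective] at h
  · intro e he
    obtain ⟨q, hq, rfl⟩ := mem_image.1 he
    rw [mem_filter] at hq
    exact ⟨of_decide_eq_true hq.2.1, hq.2.2⟩

/-- polynomials are smaller than exponentials -/
theorem poly_le (r : ℝ) (hr : 0 < r) (K : ℕ) :
    ∃ N : ℕ, ∀ n : ℕ, N ≤ n → (((2 * n) ^ K : ℕ) : ℝ) ≤ (2 : ℝ) ^ (r * (n : ℝ)) := by
  have h1 : Filter.Tendsto (fun n : ℕ => ((n : ℝ) ^ (K : ℝ)) / Real.exp (r * Real.log 2 * n))
      Filter.atTop (nhds 0) := by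
    have h := (isLittleO_pow_exp_pos_mul_atTop (k := K)
      (b := r * Real.log 2) (by positivity)).tendsto_div_nhds_zero
    have h2 := h.comp (tendsto_natCast_atTop_atTop (R := ℝ))
    refine h2.congr fun n => ?_
    simp [Function.comp, Real.rpow_natCast]
  have h2 := h1.eventually (gt_mem_nhds (show (0 : ℝ) < ((2 : ℝ) ^ K)⁻¹ by positivity))
  obtain ⟨N, hN⟩ := Filter.eventually_atTop.1 h2
  refine ⟨N, fun n hn => ?_⟩
  have h3 := hN n hn
  rw [div_lt_iff₀ (Real.exp_pos _), Real.rpow_natCast] at h3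
  have h4 : (2 : ℝ) ^ (r * (n : ℝ)) = Real.exp (r * Real.log 2 * n) := by
    rw [Real.rpow_def_of_pos (by norm_num)]
    congr 1
    ring
  rw [h4]
  push_cast
  rw [mul_pow]
  have h5 : (0 : ℝ) < (2 : ℝ) ^ K := by positivity
  calc (2 : ℝ) ^ K * (n : ℝ) ^ K ≤ (2 : ℝ) ^ K * (((2 : ℝ) ^ K)⁻¹ * Real.exp (r * Real.log 2 * n)) := by
        gcongr
    _ = _ := by
        rw [← mul_assoc, mul_inv_cancel₀ h5.ne', one_mul]

theorem t_ASM : S_ASM := by
  classical
  intro hSOUND hDEG hCOMPL hCNT hACP hCOMP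
  constructor
  · rintro ⟨δ, hδ, H⟩
    obtain ⟨γ, hγ, hC⟩ := hCNT (δ / 8) (by positivity)
    -- the parameters
    obtain ⟨b, hb1, hbγ⟩ : ∃ b : ℕ, 1 ≤ b ∧ 2 / γ ≤ b :=
      ⟨⌈2 / γ⌉₊ + 1, by omega, (Nat.le_ceil _).trans (by push_cast; linarith)⟩
    set c : ℕ := 2 * b ^ 2 with hc
    have hc1 : 1 ≤ c := by
      have : 1 ≤ b ^ 2 := Nat.one_le_pow _ _ (by omega)
      omega
    have hbc : b ≤ c := by
      have : b ≤ b ^ 2 := by nlinarith
      omega
    obtain ⟨K, d₀, hP⟩ := hACP b c hb1 hc1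
    obtain ⟨d₁, K₁, hK⟩ := hCOMP d₀
    obtain ⟨N₁, hN₁⟩ := poly_le (δ / 4) (by positivity) ((K + 1) * K₁)
    refine ⟨δ / 4, by positivity, 1 + b + 2 * c + 2 * c * (2 * c), ?_⟩
    intro d N₀
    obtain ⟨n, hn, hn1, hno⟩ := H (d + d₁) (max N₀ (max N₁ ⌈4 / δ⌉₊))
    have hnN₁ : N₁ ≤ n := (le_max_left _ _).trans ((le_max_right _ _).trans hn)
    have hnδ : 4 / δ ≤ n := by
      have h1 : ⌈4 / δ⌉₊ ≤ n := (le_max_right _ _).trans ((le_max_right _ _).trans hn)
      exact (Nat.le_ceil _).trans (by exact_mod_cast h1)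
    refine ⟨n, (le_max_left _ _).trans hn, hn1, ?_⟩
    rintro ⟨C, hwf, hd, hsize, hacc⟩
    refine hno ?_
    -- the branches
    let β : Type := {Z : Finset (Fin n × Bool) // (Z.card : ℝ) ≤ γ * Fintype.card (Fin n × Bool)}
    have hne : Nonempty β := ⟨⟨∅, by simp; positivity⟩⟩
    have hw2 : 2 ≤ (2 * n) ^ (K + 1) := by
      calc 2 ≤ 2 * n := by omega
        _ = (2 * n) ^ 1 := (pow_one _).symm
        _ ≤ (2 * n) ^ (K + 1) := Nat.pow_le_pow_right (by omega) (by omega)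
    have hwK : (2 * n) ^ K ≤ (2 * n) ^ (K + 1) := Nat.pow_le_pow_right (by omega) (by omega)
    obtain ⟨C', g1, g2, g3, g4⟩ := hK n d ((2 * n) ^ (K + 1)) β C hwf hd hw2
      (fun Z q x => Psi b c Z.1 (Hyp x) q.1) (fun Z q => AC.mono hwK (hP n hn1 Z.1 q))
    refine ⟨C', g1, g2, ?_, ?_⟩
    · -- the size
      set X : ℝ := (2 : ℝ) ^ (δ / 4 * (n : ℝ)) with hX
      have hX2 : 2 ≤ X := by
        have h1 : (1 : ℝ) ≤ δ / 4 * n := by
          rw [div_le_iff₀ hδ] at hnδ
          linarith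
        calc (2 : ℝ) = (2 : ℝ) ^ (1 : ℝ) := (Real.rpow_one 2).symm
          _ ≤ X := Real.rpow_le_rpow_of_exponent_le (by norm_num) h1
      have hβ : (Fintype.card β : ℝ) ≤ X := by
        have h1 := hC (Fin n × Bool)
        have h2 : Fintype.card β = (univ.filter (fun Z : Finset (Fin n × Bool) =>
            (Z.card : ℝ) ≤ γ * Fintype.card (Fin n × Bool))).card := by
          rw [Fintype.card_subtype]
        rw [h2]
        refine le_trans ?_ (h1.trans ?_)
        · apply le_of_eq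
          congr 2
        · rw [hX]
          apply Real.rpow_le_rpow_of_exponent_le (by norm_num)
          simp only [Fintype.card_prod, Fintype.card_fin, Fintype.card_bool]
          push_cast
          linarith
      have hw : ((((2 * n) ^ (K + 1)) ^ K₁ : ℕ) : ℝ) ≤ X := by
        rw [← pow_mul]
        exact hN₁ n hnN₁
      have hw1 : (1 : ℝ) ≤ ((((2 * n) ^ (K + 1)) ^ K₁ : ℕ) : ℝ) := by
        have : 1 ≤ ((2 * n) ^ (K + 1)) ^ K₁ := Nat.one_le_pow _ _ (by omega)
        exact_mod_cast this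
      have g3' : (C'.m : ℝ) ≤ (Fintype.card β : ℝ) *
          ((C.m : ℝ) + (Fintype.card (Cl n) : ℝ) * ((((2 * n) ^ (K + 1)) ^ K₁ : ℕ) : ℝ)) + 1 := by
        exact_mod_cast g3
      set W : ℝ := ((((2 * n) ^ (K + 1)) ^ K₁ : ℕ) : ℝ) with hW
      set B : ℝ := (Fintype.card β : ℝ) with hB
      set M : ℝ := (C.m : ℝ) with hM
      set L : ℝ := (Fintype.card (Cl n) : ℝ) with hL
      have hM0 : 0 ≤ M := Nat.cast_nonneg _
      have hL0 : 0 ≤ L := Nat.cast_nonneg _
      have hB0 : 0 ≤ B := Nat.cast_nonneg _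
      have hX0 : 0 ≤ X := by linarith
      have e1 : M + L * W ≤ X * X := by
        calc M + L * W ≤ (L + M) * W := by nlinarith
          _ ≤ X * X := by
            apply mul_le_mul hsize hw (by linarith) hX0
      have e2 : B * (M + L * W) ≤ X * (X * X) :=
        mul_le_mul hβ e1 (by nlinarith) hX0
      have e3 : (2 : ℝ) ^ (δ * (n : ℝ)) = (X * X) * (X * X) := by
        rw [hX, ← Real.rpow_add (by norm_num), ← Real.rpow_add (by norm_num)]
        congr 1
        ring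
      rw [e3]
      have e4 : L ≤ X := by linarith
      have e5 : 4 ≤ X * X := by nlinarith
      nlinarith [mul_nonneg hX0 (mul_self_nonneg X)]
    · -- correctness
      intro x
      rw [g4]
      have hind : ∀ Z : Finset (Fin n × Bool), C.Acc (Ind b c Z x) ↔ Sat (Ind b c Z x) :=
        fun Z => hacc _ (fun l => ind_sparse hDEG b c hb1 hc1 Z x l)
      constructor
      · rintro ⟨Z, hZ⟩
        have h1 : Sat (Ind b c Z.1 x) := (hind Z.1).1 hZ
        rw [sat_iff] at h1 ⊢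
        obtain ⟨a, ha⟩ := h1
        rw [hits_ind] at ha
        exact ⟨a, hSOUND _ b c Z.1 (Hyp x) (fun e he => Hyp_card he) _ ha⟩
      · intro hs
        rw [sat_iff] at hs
        obtain ⟨a, ha⟩ := hs
        obtain ⟨Z, hZ, hZ'⟩ := hCOMPL (Fin n × Bool) b c hb1 hbc (Hyp x) (Tr a) ha
        have hZγ : (Z.card : ℝ) ≤ γ * Fintype.card (Fin n × Bool) := by
          have h0 : ((Z.card * (b * (2 * b ^ 2)) : ℕ) : ℝ) ≤
              (((2 * b ^ 2 + 2 * b ^ 2) * Fintype.card (Fin n × Bool) : ℕ) : ℝ) :=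
            Nat.cast_le.2 hZ
          have hV0 : (0 : ℝ) ≤ (Fintype.card (Fin n × Bool) : ℝ) := Nat.cast_nonneg _
          rw [Nat.cast_mul, Nat.cast_mul] at h0
          push_cast at h0
          generalize (Fintype.card (Fin n × Bool) : ℝ) = V at h0 hV0 ⊢
          have hbR : (1 : ℝ) ≤ b := by exact_mod_cast hb1
          have h1 : (Z.card : ℝ) * ((b : ℝ) * (2 * (b : ℝ) ^ 2)) ≤
              (2 * (b : ℝ) ^ 2 + 2 * (b : ℝ) ^ 2) * V := h0
          have h2 : (Z.card : ℝ) * b ≤ 2 * V := by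
            have hb2 : (0 : ℝ) < 2 * (b : ℝ) ^ 2 := by positivity
            have h3 : ((Z.card : ℝ) * b) * (2 * (b : ℝ) ^ 2) ≤ (2 * V) * (2 * (b : ℝ) ^ 2) := by
              nlinarith
            exact le_of_mul_le_mul_right h3 hb2
          have h3 : 2 ≤ γ * b := by
            rw [div_le_iff₀ hγ] at hbγ
            linarith
          have hb0 : (0 : ℝ) < b := by linarith
          have h4 : (Z.card : ℝ) * b ≤ (γ * V) * b := by nlinarith
          exact le_of_mul_le_mul_right h4 hb0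
        refine ⟨⟨Z, hZγ⟩, ?_⟩
        have h1 : C.Acc (Ind b c Z x) := by
          rw [hind, sat_iff]
          exact ⟨a, (hits_ind b c Z x _).2 hZ'⟩
        exact h1
  · rintro ⟨δ, hδ, k, H⟩
    refine ⟨δ, hδ, fun d N₀ => ?_⟩
    obtain ⟨n, hn, hn1, hno⟩ := H d N₀
    refine ⟨n, hn, hn1, ?_⟩
    rintro ⟨C, hwf, hd, hsize, hacc⟩
    exact hno ⟨C, hwf, hd, hsize, fun x _ => hacc x⟩

end Pool.Agent.J4H17.SP
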